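import Pool.Agent.Helper92.SDX.K

/-! # From relaxations to factorisations, with a set of feasible points and a set of solved instances
(adapted from helper92's K) -/

set_option autoImplicit false

open scoped BigOperators Matrix

namespace SDX

/-- the point of the cube `{±1}^n` with the signs of `x` on the coordinates in the range of `e`, and
the sign `1` elsewhere -/
noncomputable def zz {n m b : ℕ} (e : Fin m × Fin b ↪ Fin n) (x : Fin m × Fin b → Bool) :
    Fin n → ℝ := Function.extend e (fun p => sg (x p)) (fun _ => 1)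

lemma zz_apply {n m b : ℕ} (e : Fin m × Fin b ↪ Fin n) (x : Fin m × Fin b → Bool)
    (p : Fin m × Fin b) : zz e x (e p) = sg (x p) := e.injective.extend_apply _ _ p

lemma zz_cases {n m b : ℕ} (e : Fin m × Fin b ↪ Fin n) (x : Fin m × Fin b → Bool) (k : Fin n) :
    zz e x k = 1 ∨ zz e x k = -1 := by
  by_cases hk : ∃ p, e p = k
  · obtain ⟨p, rfl⟩ := hk
    rw [zz_apply]
    unfold sg
    cases x p <;> simp
  · left
    exact Function.extend_apply' _ _ _ hk

open h92 in
theorem factor3 {n r m b : ℕ}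
    (𝓐 : AffineSubspace ℝ (Matrix (Fin n) (Fin n) ℝ × Matrix (Fin r) (Fin r) ℝ))
    (c₀ : ℝ) (e : Fin m × Fin b ↪ Fin n)
    (𝒳 : Finset (Fin m × Fin b → Bool))
    (hrel : ∀ x ∈ 𝒳, ∃ X : Matrix (Fin r) (Fin r) ℝ, X.PosSemidef ∧
      (Matrix.vecMulVec (Function.extend e (fun p => sg (x p)) fun _ => 1)
        (Function.extend e (fun p => sg (x p)) fun _ => 1), X) ∈ 𝓐)
    (𝒮 : Finset (Fin m → Fin b))
    (hno : ∀ S ∈ 𝒮, ∀ (Y : Matrix (Fin n) (Fin n) ℝ) (X : Matrix (Fin r) (Fin r) ℝ),
      X.PosSemidef → (Y, X) ∈ 𝓐 → Y.IsSymm → (∀ i, Y i i = 1) →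
      c₀ ≤ ∑ i, ∑ j, Y (e (i, S i)) (e (j, S j)))
    (τ : ℝ) (hτ : 0 < τ) :
    ∃ (P : (Fin m → Fin b) → Matrix (Fin (r + 1)) (Fin (r + 1)) ℝ)
      (Q : (Fin m × Fin b → Bool) → Matrix (Fin (r + 1)) (Fin (r + 1)) ℝ),
      (∀ S, (P S).PosSemidef) ∧ (∀ x, (Q x).PosSemidef) ∧
      (∀ S, S ∉ 𝒮 → P S = 0) ∧ (∀ x, x ∉ 𝒳 → Q x = 0) ∧
      ∀ S ∈ 𝒮, ∀ x ∈ 𝒳, |(P S * Q x).trace - (ssum (rs S x) ^ 2 - c₀)| ≤ τ := by
  classical
  have hz := zz_apply e
  have hz1 := zz_cases e
  let Xt : Type := {x : Fin m × Fin b → Bool // x ∈ 𝒳}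
  have hrel' : ∀ x : Xt, ∃ X : Matrix (Fin r) (Fin r) ℝ,
      X.PosSemidef ∧ (Matrix.vecMulVec (zz e x.1) (zz e x.1), X) ∈ 𝓐 := fun x => hrel x.1 x.2
  choose X hX hXA using hrel'
  let Z : Xt → Matrix (Fin (r + 1)) (Fin (r + 1)) ℝ :=
    fun x => (Matrix.fromBlocks (X x) 0 0 (1 : Matrix (Fin 1) (Fin 1) ℝ)).submatrix
      finSumFinEquiv.symm finSumFinEquiv.symm
  have hZ : ∀ x, (Z x).PosSemidef := by
    intro x
    refine Matrix.PosSemidef.submatrix ?_ _
    refine Matrix.PosSemidef.of_dotProduct_mulVec_nonneg ?_ ?_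
    · exact Matrix.IsHermitian.fromBlocks (hX x).isHermitian (by simp)
        Matrix.isHermitian_one
    · intro v
      have h1 := (hX x).dotProduct_mulVec_nonneg (v ∘ Sum.inl)
      have h2 : star v ⬝ᵥ (Matrix.fromBlocks (X x) 0 0 (1 : Matrix (Fin 1) (Fin 1) ℝ) *ᵥ v)
          = star (v ∘ Sum.inl) ⬝ᵥ (X x *ᵥ (v ∘ Sum.inl))
            + ∑ i, v (Sum.inr i) * v (Sum.inr i) := by
        rw [Matrix.fromBlocks_mulVec, dotProduct, Fintype.sum_sum_type]
        simp [dotProduct]
      rw [h2]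
      have h3 : 0 ≤ ∑ i : Fin 1, v (Sum.inr i) * v (Sum.inr i) :=
        Finset.sum_nonneg fun i _ => mul_self_nonneg _
      linarith
  -- general weights of total mass one
  have hgen : ∀ S ∈ 𝒮, ∀ u : Xt → ℝ, ∑ x, u x = 1 →
      (∑ x, u x • X x).PosSemidef → c₀ ≤ ∑ x, u x * ssum (rs S x.1) ^ 2 := by
    intro S hS u hu hpsd
    have h1 := mem_comb 𝓐 (fun x : Xt => (Matrix.vecMulVec (zz e x.1) (zz e x.1), X x)) hXA u hu
    have h2 : ∑ x : Xt, u x • (Matrix.vecMulVec (zz e x.1) (zz e x.1), X x)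
        = (∑ x : Xt, u x • Matrix.vecMulVec (zz e x.1) (zz e x.1), ∑ x, u x • X x) := by
      rw [Prod.ext_iff]
      constructor
      · rw [Prod.fst_sum]
        rfl
      · rw [Prod.snd_sum]
        rfl
    rw [h2] at h1
    have h3 := hno S hS _ _ hpsd h1 ?_ ?_
    · refine h3.trans (le_of_eq ?_)
      have h4 : ∀ i j : Fin m,
          (∑ x : Xt, u x • Matrix.vecMulVec (zz e x.1) (zz e x.1)) (e (i, S i)) (e (j, S j))
          = ∑ x : Xt, u x * (sg (x.1 (i, S i)) * sg (x.1 (j, S j))) := by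
        intro i j
        rw [Matrix.sum_apply]
        refine Finset.sum_congr rfl fun x _ => ?_
        rw [Matrix.smul_apply, Matrix.vecMulVec_apply, hz, hz, smul_eq_mul]
      simp only [h4]
      have h5 : ∀ x : Fin m × Fin b → Bool, ssum (rs S x) ^ 2
          = ∑ i, ∑ j, sg (x (i, S i)) * sg (x (j, S j)) := by
        intro x
        rw [sq, ssum, Finset.sum_mul_sum]
        rfl
      simp only [h5, Finset.mul_sum]
      have h6 : ∀ i : Fin m, ∑ j : Fin m, ∑ x : Xt,
          u x * (sg (x.1 (i, S i)) * sg (x.1 (j, S j)))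
          = ∑ x : Xt, ∑ j : Fin m,
          u x * (sg (x.1 (i, S i)) * sg (x.1 (j, S j))) := fun i => Finset.sum_comm
      simp only [h6]
      exact Finset.sum_comm
    · unfold Matrix.IsSymm
      rw [Matrix.transpose_sum]
      refine Finset.sum_congr rfl fun x _ => ?_
      rw [Matrix.transpose_smul, Matrix.transpose_vecMulVec]
    · intro i
      rw [Matrix.sum_apply]
      simp only [Matrix.smul_apply, Matrix.vecMulVec_apply, smul_eq_mul]
      rw [← hu]
      refine Finset.sum_congr rfl fun x _ => ?_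
      rcases hz1 x.1 i with h | h <;> rw [h] <;> ring
  have hmain : ∀ S ∈ 𝒮, ∃ P : Matrix (Fin (r + 1)) (Fin (r + 1)) ℝ, P.PosSemidef ∧
      ∀ x : Xt, |(P * Z x).trace - (ssum (rs S x.1) ^ 2 - c₀)| ≤ τ := by
    intro S hS
    let C : Set (Xt → ℝ) :=
      {u | ∃ P : Matrix (Fin (r + 1)) (Fin (r + 1)) ℝ, P.PosSemidef ∧ ∀ x, u x = (P * Z x).trace}
    have hadd : ∀ u ∈ C, ∀ v ∈ C, u + v ∈ C := by
      rintro u ⟨P, hP, hu⟩ v ⟨P', hP', hv⟩
      refine ⟨P + P', hP.add hP', fun x => ?_⟩
      rw [Pi.add_apply, hu, hv, Matrix.add_mul, Matrix.trace_add]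
    have hsm : ∀ a : ℝ, 0 ≤ a → ∀ u ∈ C, a • u ∈ C := by
      rintro a ha u ⟨P, hP, hu⟩
      refine ⟨a • P, hP.smul ha, fun x => ?_⟩
      rw [Pi.smul_apply, hu, Matrix.smul_mul, Matrix.trace_smul]
    rcases cone_sep C ⟨0, Matrix.PosSemidef.zero, by simp⟩ hadd hsm
        (fun x : Xt => ssum (rs S x.1) ^ 2 - c₀) τ hτ with ⟨u, ⟨P, hP, hPu⟩, hu⟩ | ⟨w, hw, hwl⟩
    · refine ⟨P, hP, fun x => ?_⟩
      rw [← hPu]
      exact hu x
    · exfalso
      -- the weighted sum is psd
      have hherm : (∑ x, w x • Z x).IsHermitian := by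
        unfold Matrix.IsHermitian
        rw [Matrix.conjTranspose_sum]
        refine Finset.sum_congr rfl fun x _ => ?_
        rw [Matrix.conjTranspose_smul, (hZ x).isHermitian.eq]
        simp
      have hpsd : (∑ x, w x • Z x).PosSemidef := by
        refine psd_of_trace _ hherm fun P hP => ?_
        have h1 := hw (fun x => (P * Z x).trace) ⟨P, hP, fun _ => rfl⟩
        have h2 : (P * ∑ x, w x • Z x).trace = ∑ x, w x * (P * Z x).trace := by
          rw [Matrix.mul_sum, Matrix.trace_sum]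
          refine Finset.sum_congr rfl fun x _ => ?_
          rw [Matrix.mul_smul, Matrix.trace_smul, smul_eq_mul]
        rw [h2]
        exact h1
      have hXpsd : (∑ x, w x • X x).PosSemidef := by
        have h1 := hpsd.submatrix (fun i : Fin r => finSumFinEquiv (Sum.inl i : Fin r ⊕ Fin 1))
        have h2 : (∑ x, w x • Z x).submatrix
            (fun i : Fin r => finSumFinEquiv (Sum.inl i : Fin r ⊕ Fin 1))
            (fun i : Fin r => finSumFinEquiv (Sum.inl i : Fin r ⊕ Fin 1))
            = ∑ x, w x • X x := by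
          ext i j
          rw [Matrix.submatrix_apply, Matrix.sum_apply, Matrix.sum_apply]
          refine Finset.sum_congr rfl fun x _ => ?_
          simp only [Matrix.smul_apply, Z, Matrix.submatrix_apply, Equiv.symm_apply_apply,
            Matrix.fromBlocks_apply₁₁]
        rwa [h2] at h1
      have hwpos : 0 ≤ ∑ x, w x := by
        have h1 := hpsd.diag_nonneg (i := finSumFinEquiv (Sum.inr 0 : Fin r ⊕ Fin 1))
        have h2 : (∑ x, w x • Z x) (finSumFinEquiv (Sum.inr 0 : Fin r ⊕ Fin 1))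
            (finSumFinEquiv (Sum.inr 0 : Fin r ⊕ Fin 1)) = ∑ x, w x := by
          rw [Matrix.sum_apply]
          refine Finset.sum_congr rfl fun x _ => ?_
          simp only [Matrix.smul_apply, Z, Matrix.submatrix_apply, Equiv.symm_apply_apply,
            Matrix.fromBlocks_apply₂₂, Matrix.one_apply_eq, smul_eq_mul, mul_one]
        rwa [h2] at h1
      have hexp : ∑ x, w x * (ssum (rs S x.1) ^ 2 - c₀)
          = ∑ x, w x * ssum (rs S x.1) ^ 2 - c₀ * ∑ x, w x := by
        rw [Finset.mul_sum, ← Finset.sum_sub_distrib]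
        exact Finset.sum_congr rfl fun x _ => by ring
      have hne : Nonempty Xt := by
        by_contra hemp
        rw [not_nonempty_iff] at hemp
        simp at hwl
      obtain ⟨x₀⟩ := hne
      rw [hexp] at hwl
      rcases hwpos.lt_or_eq with hW | hW
      · -- positive total weight
        have h1 := hgen S hS (fun x => (∑ y, w y)⁻¹ * w x)
          (by rw [← Finset.mul_sum]; exact inv_mul_cancel₀ hW.ne')
          (by
            have h2 : ∑ x, ((∑ y, w y)⁻¹ * w x) • X x = (∑ y, w y)⁻¹ • ∑ x, w x • X x := by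
              rw [Finset.smul_sum]
              exact Finset.sum_congr rfl fun x _ => by rw [smul_smul]
            rw [h2]
            exact hXpsd.smul (inv_nonneg.2 hW.le))
        have h2 : ∑ x, (∑ y, w y)⁻¹ * w x * ssum (rs S x.1) ^ 2
            = (∑ y, w y)⁻¹ * ∑ x, w x * ssum (rs S x.1) ^ 2 := by
          rw [Finset.mul_sum]
          exact Finset.sum_congr rfl fun x _ => by ring
        rw [h2, le_inv_mul_iff₀ hW] at h1
        linarith
      · -- zero total weight
        rw [← hW, mul_zero, sub_zero] at hwl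
        set A := ∑ x, w x * ssum (rs S x.1) ^ 2 with hA
        have key : ∀ lam : ℝ, 0 ≤ lam → c₀ ≤ ssum (rs S x₀.1) ^ 2 + lam * A := by
          intro lam hlam
          have hδ : ∀ {V : Type} [AddCommMonoid V] (F : Xt → V),
              ∑ x, (if x = x₀ then F x else 0) = F x₀ := fun F => by
            rw [Finset.sum_ite_eq' Finset.univ x₀ F, if_pos (Finset.mem_univ _)]
          have h1 := hgen S hS (fun x => (if x = x₀ then 1 else 0) + lam * w x)
            (by rw [Finset.sum_add_distrib, ← Finset.mul_sum, ← hW, hδ (fun _ => (1 : ℝ))]; simp)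
            (by
              have h2 : ∑ x, ((if x = x₀ then (1 : ℝ) else 0) + lam * w x) • X x
                  = X x₀ + lam • ∑ x, w x • X x := by
                simp only [add_smul, Finset.sum_add_distrib, ite_smul, one_smul, zero_smul]
                rw [hδ X, Finset.smul_sum]
                simp only [smul_smul]
              rw [h2]
              exact (hX x₀).add (hXpsd.smul hlam))
          have h2 : ∑ x : Xt, ((if x = x₀ then (1 : ℝ) else 0) + lam * w x) * ssum (rs S x.1) ^ 2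
              = ssum (rs S x₀.1) ^ 2 + lam * A := by
            simp only [add_mul, Finset.sum_add_distrib, ite_mul, one_mul, zero_mul]
            rw [hδ (fun x => ssum (rs S x.1) ^ 2), hA, Finset.mul_sum]
            simp only [mul_assoc]
          rwa [h2] at h1
        have h3 := key ((|ssum (rs S x₀.1) ^ 2 - c₀| + 1) / (-A))
          (div_nonneg (by positivity) (by linarith))
        have h4 : (|ssum (rs S x₀.1) ^ 2 - c₀| + 1) / (-A) * A
            = -(|ssum (rs S x₀.1) ^ 2 - c₀| + 1) := by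
          rw [div_mul_eq_mul_div, div_eq_iff (by linarith : -A ≠ 0)]
          ring
        rw [h4] at h3
        have h5 := le_abs_self (ssum (rs S x₀.1) ^ 2 - c₀)
        linarith
  have hmain' : ∀ S, ∃ P : Matrix (Fin (r + 1)) (Fin (r + 1)) ℝ, P.PosSemidef ∧
      (S ∈ 𝒮 → ∀ x : Xt, |(P * Z x).trace - (ssum (rs S x.1) ^ 2 - c₀)| ≤ τ) ∧
      (S ∉ 𝒮 → P = 0) := by
    intro S
    by_cases hS : S ∈ 𝒮
    · obtain ⟨P, hP, h⟩ := hmain S hS
      exact ⟨P, hP, fun _ => h, fun h' => absurd hS h'⟩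
    · exact ⟨0, Matrix.PosSemidef.zero, fun h => absurd h hS, fun _ => rfl⟩
  choose P hP hPM hP0 using hmain'
  refine ⟨P, fun x => if h : x ∈ 𝒳 then Z ⟨x, h⟩ else 0, hP, fun x => ?_, hP0,
    fun x hx => ?_, fun S hS x hx => ?_⟩
  · by_cases h : x ∈ 𝒳
    · simp only [h, dif_pos]
      exact hZ _
    · simp only [h, not_false_eq_true, dif_neg]
      exact Matrix.PosSemidef.zero
  · simp only [hx, not_false_eq_true, dif_neg]
  · simp only [hx, dif_pos]
    exact hPM S hS ⟨x, hx⟩

end SDX
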