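import Mathlib
import Pool.Agent.Helper71.SDX.Cube
import Pool.Agent.Helper97.SDX.Restrict2

/-!
# Second moment of the marginals of a function on the big cube
-/

set_option autoImplicit false

open scoped BigOperators Matrix

namespace SDX

namespace h59

open h71

variable {m b : ℕ}

/-- the graph of `S` over `A` -/
def gph (S : Fin m → Fin b) (A : Finset (Fin m)) : Finset (Fin m × Fin b) :=
  A.map ⟨fun j => (j, S j), fun i j h => by simpa using congrArg Prod.fst h⟩

lemma gph_injective (S : Fin m → Fin b) : Function.Injective (gph S) :=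
  Finset.map_injective _

lemma gph_empty (S : Fin m → Fin b) : gph S ∅ = ∅ := by simp [gph]

lemma gph_eq_empty (S : Fin m → Fin b) (A : Finset (Fin m)) : gph S A = ∅ ↔ A = ∅ := by
  simp [gph]

lemma mem_gph {S : Fin m → Fin b} {A : Finset (Fin m)} {e : Fin m × Fin b} (h : e ∈ gph S A) :
    S e.1 = e.2 := by
  unfold gph at h
  rw [Finset.mem_map] at h
  obtain ⟨j, _, rfl⟩ := h
  rfl

/-- correlation of `f` with a function on the graph of `S` -/
lemma corr (S : Fin m → Fin b) (f : (Fin m × Fin b → Bool) → ℝ) (G : (Fin m → Bool) → ℝ) :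
    (∑ x, f x * G (rs S x)) / 2 ^ (m * b) = ∑ A, coef A G * coef (gph S A) f := by
  have h1 : ∀ x : Fin m × Fin b → Bool, G (rs S x) = ∑ A, coef A G * chr (gph S A) x := by
    intro x
    rw [inversion G (rs S x)]
    refine Finset.sum_congr rfl fun A _ => ?_
    unfold chr rs gph
    rw [Finset.prod_map]
    rfl
  have h2 : Fintype.card (Fin m × Fin b) = m * b := by simp
  calc (∑ x, f x * G (rs S x)) / 2 ^ (m * b)
      = (∑ x, ∑ A, coef A G * (f x * chr (gph S A) x)) / 2 ^ (m * b) := by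
        congr 1
        refine Finset.sum_congr rfl fun x _ => ?_
        rw [h1, Finset.mul_sum]
        refine Finset.sum_congr rfl fun A _ => by ring
    _ = ∑ A, coef A G * coef (gph S A) f := by
        rw [Finset.sum_comm, Finset.sum_div]
        refine Finset.sum_congr rfl fun A _ => ?_
        rw [← Finset.mul_sum, mul_div_assoc]
        congr 1
        unfold coef
        rw [h2]

lemma sum_gph (hb : 0 < b) (F : Finset (Fin m × Fin b) → ℝ) (hF : ∀ α, 0 ≤ F α) :
    ∑ S : Fin m → Fin b, ∑ A ∈ Finset.univ.filter (fun A : Finset (Fin m) => A ≠ ∅),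
      F (gph S A) ≤ (b : ℝ) ^ m / b * ∑ α, F α := by
  have hb' : (0 : ℝ) < b := by exact_mod_cast hb
  have h1 : ∀ S : Fin m → Fin b,
      ∑ A ∈ Finset.univ.filter (fun A : Finset (Fin m) => A ≠ ∅), F (gph S A)
        ≤ ∑ α, if α ≠ ∅ ∧ ∀ e ∈ α, S e.1 = e.2 then F α else 0 := by
    intro S
    rw [← Finset.sum_filter]
    have h5 := Finset.sum_map (Finset.univ.filter
      (fun A : Finset (Fin m) => A ≠ ∅)) ⟨gph S, gph_injective S⟩ F
    refine h5.symm.le.trans ?_
    refine Finset.sum_le_sum_of_subset_of_nonneg ?_ fun α _ _ => hF α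
    intro α hα
    rw [Finset.mem_map] at hα
    obtain ⟨A, hA, rfl⟩ := hα
    rw [Finset.mem_filter] at hA ⊢
    exact ⟨Finset.mem_univ _, fun h => hA.2 ((gph_eq_empty S A).1 h), fun e he => mem_gph he⟩
  refine (Finset.sum_le_sum fun S _ => h1 S).trans ?_
  rw [Finset.sum_comm, Finset.mul_sum]
  refine Finset.sum_le_sum fun α _ => ?_
  by_cases hα : α = ∅
  · simp only [hα, ne_eq, not_true_eq_false, false_and, if_false, Finset.sum_const_zero]
    exact mul_nonneg (by positivity) (hF _)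
  · have h2 : ∑ S : Fin m → Fin b, (if α ≠ ∅ ∧ ∀ e ∈ α, S e.1 = e.2 then F α else 0)
        = ((Finset.univ.filter (fun S : Fin m → Fin b => ∀ e ∈ α, S e.1 = e.2)).card : ℝ) * F α := by
      rw [← Finset.sum_filter, Finset.sum_const, nsmul_eq_mul]
      simp [hα]
    rw [h2]
    refine mul_le_mul_of_nonneg_right ?_ (hF _)
    have h3 := h97.count_sub α
    have h4 : 1 ≤ α.card := Finset.one_le_card.2 (Finset.nonempty_iff_ne_empty.2 hα)
    rw [le_div_iff₀ hb']
    refine le_trans ?_ h3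
    refine mul_le_mul_of_nonneg_left ?_ (by positivity)
    calc (b : ℝ) = (b : ℝ) ^ 1 := (pow_one _).symm
      _ ≤ (b : ℝ) ^ α.card := pow_le_pow_right₀ (by exact_mod_cast hb) h4

end h59

namespace h59

/-- second moment bound for the correlation of `f` with a function of the coordinates on the graph
of a random `S` -/
theorem marg_dev' {m b : ℕ} (hb : 0 < b) (f : (Fin m × Fin b → Bool) → ℝ)
    (G : (Fin m → Bool) → ℝ) :
    ∑ S : Fin m → Fin b, ((∑ x, f x * G (rs S x)) / 2 ^ (m * b)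
        - (∑ x, f x) / 2 ^ (m * b) * ((∑ y, G y) / 2 ^ m)) ^ 2
      ≤ (b : ℝ) ^ m / b * ((∑ x, f x ^ 2) / 2 ^ (m * b)) * ((∑ y, G y ^ 2) / 2 ^ m) := by
  have hc : Fintype.card (Fin m × Fin b) = m * b := by simp
  have e0 : ∀ S : Fin m → Fin b, (∑ x, f x * G (rs S x)) / 2 ^ (m * b)
        - (∑ x, f x) / 2 ^ (m * b) * ((∑ y, G y) / 2 ^ m)
      = ∑ A ∈ Finset.univ.filter (fun A : Finset (Fin m) => A ≠ ∅),
          coef A G * coef (gph S A) f := by
    intro S
    rw [corr, Finset.filter_ne', Finset.sum_erase_eq_sub (Finset.mem_univ _), gph_empty]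
    have h1 : coef ∅ G = (∑ y, G y) / 2 ^ m := by simp [coef]
    have h2 : coef ∅ f = (∑ x, f x) / 2 ^ (m * b) := by
      unfold coef
      rw [hc]
      simp
    rw [h1, h2]
    ring
  have hG : ∑ A, coef A G ^ 2 = (∑ y, G y ^ 2) / 2 ^ m := by
    rw [parseval G, Fintype.card_fin]
    field_simp
  have hf : ∑ α, coef α f ^ 2 = (∑ x, f x ^ 2) / 2 ^ (m * b) := by
    rw [parseval f, hc]
    field_simp
  have h1 : ∀ S : Fin m → Fin b, ((∑ x, f x * G (rs S x)) / 2 ^ (m * b)
        - (∑ x, f x) / 2 ^ (m * b) * ((∑ y, G y) / 2 ^ m)) ^ 2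
      ≤ ((∑ y, G y ^ 2) / 2 ^ m) *
        ∑ A ∈ Finset.univ.filter (fun A : Finset (Fin m) => A ≠ ∅), coef (gph S A) f ^ 2 := by
    intro S
    rw [e0 S, ← hG]
    refine (Finset.sum_mul_sq_le_sq_mul_sq _ _ _).trans ?_
    refine mul_le_mul_of_nonneg_right ?_ (Finset.sum_nonneg fun _ _ => sq_nonneg _)
    exact Finset.sum_le_sum_of_subset_of_nonneg (Finset.filter_subset _ _)
      fun _ _ _ => sq_nonneg _
  refine (Finset.sum_le_sum fun S _ => h1 S).trans ?_
  rw [← Finset.mul_sum]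
  have h2 := sum_gph hb (fun α => coef α f ^ 2) (fun _ => sq_nonneg _)
  rw [hf] at h2
  calc _ ≤ ((∑ y, G y ^ 2) / 2 ^ m) * ((b : ℝ) ^ m / b * ((∑ x, f x ^ 2) / 2 ^ (m * b))) := by
        refine mul_le_mul_of_nonneg_left h2 ?_
        exact div_nonneg (Finset.sum_nonneg fun _ _ => sq_nonneg _) (by positivity)
    _ = _ := by ring

end h59

theorem marg_dev {m b : ℕ} (hb : 0 < b) (f : (Fin m × Fin b → Bool) → ℝ)
    (G : (Fin m → Bool) → ℝ) :
    ∑ S : Fin m → Fin b, (∑ x, f x * G (rs S x) - (∑ x, f x) * (∑ y, G y) / 2 ^ m) ^ 2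
      ≤ (b : ℝ) ^ m * 2 ^ (m * b) * (∑ x, f x ^ 2) * (∑ y, G y ^ 2) / 2 ^ m / b := by
  have h := h59.marg_dev' hb f G
  have hb' : (0 : ℝ) < b := by exact_mod_cast hb
  have e1 : ∀ S : Fin m → Fin b, (∑ x, f x * G (rs S x) - (∑ x, f x) * (∑ y, G y) / 2 ^ m) ^ 2
      = ((2 : ℝ) ^ (m * b)) ^ 2 * ((∑ x, f x * G (rs S x)) / 2 ^ (m * b)
        - (∑ x, f x) / 2 ^ (m * b) * ((∑ y, G y) / 2 ^ m)) ^ 2 := by
    intro S
    rw [← mul_pow]
    congr 1
    field_simp
  rw [Finset.sum_congr rfl fun S _ => e1 S, ← Finset.mul_sum]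
  refine (mul_le_mul_of_nonneg_left h (by positivity)).trans (le_of_eq ?_)
  field_simp

end SDX
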