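import Mathlib
import Pool.Agent.Helper59.SDX.MargDev
import Pool.Agent.Helper71.SDX.Pd
import Pool.Agent.Helper97.SDX.Pd

/-!
# Most tests are good
-/

set_option autoImplicit false

open scoped BigOperators Matrix

namespace SDX

namespace h59

/-- most `S` have a negative test against the indicator of a dense set `𝒳` -/
theorem good_tests {m b i : ℕ} (hm : Odd m) (hb : 0 < b) (hmi : 8 * i + 2 ≤ m) (c₀ γ L : ℝ)
    (hc₀ : 0 < c₀) (hc₁ : c₀ ≤ 1) (hγ₀ : 0 < γ) (hγ₁ : γ ≤ 1) (hL : 0 ≤ L)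
    (p : Polynomial ℝ) (hpdeg : p.natDegree ≤ 4 * i) (hp0 : p.eval 0 = 1)
    (hp2 : ∀ y : Fin m → Bool, ssum y ^ 2 * p.eval (ssum y) ^ 2 ≤ L ^ 2)
    (hp3 : ∑ y : Fin m → Bool, ssum y ^ 2 * p.eval (ssum y) ^ 2
      ≤ 2 ^ m * (16 * L ^ 3 / Real.sqrt m))
    (hbm : 2048 * Real.sqrt m * L ^ 5 ≤ (c₀ * γ ^ 3) ^ 2 * b)
    (𝒳 : Finset (Fin m × Fin b → Bool)) (h𝒳 : γ * 2 ^ (m * b) ≤ 𝒳.card)
    (𝒮 : Finset (Fin m → Fin b)) (h𝒮 : γ * (b : ℝ) ^ m ≤ 𝒮.card) :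
    ∃ 𝒢 : Finset (Fin m → Fin b), 𝒢 ⊆ 𝒮 ∧ γ / 2 * (b : ℝ) ^ m ≤ 𝒢.card ∧
      ∀ S ∈ 𝒢, ∑ x ∈ 𝒳, pd m (rs S x) * ((ssum (rs S x) ^ 2 - c₀) * p.eval (ssum (rs S x)) ^ 2)
        ≤ -(3 / 4 * (c₀ * γ) * 2 ^ (m * b)) := by
  classical
  have hm1 : 1 ≤ m := hm.pos
  have hm' : (1 : ℝ) ≤ m := by exact_mod_cast hm1
  have hb' : (0 : ℝ) < b := by exact_mod_cast hb
  have hspos : 0 < Real.sqrt m := Real.sqrt_pos.2 (by linarith)
  have hss : Real.sqrt m * Real.sqrt m = m := Real.mul_self_sqrt (by linarith)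
  set V : ℝ := (2 : ℝ) ^ (m * b) with hV
  have hVpos : 0 < V := by positivity
  set N : ℝ := (b : ℝ) ^ m with hN
  have hNpos : 0 < N := by positivity
  set G : (Fin m → Bool) → ℝ := fun y => pd m y * ((ssum y ^ 2 - c₀) * p.eval (ssum y) ^ 2)
    with hG
  -- mean of `G`
  have hGmean : ∑ y, G y = -(c₀ * 2 ^ m) := by
    have h1 := pd_exact m hm ((Polynomial.X ^ 2 - Polynomial.C c₀) * p ^ 2) (by
      refine (Polynomial.natDegree_mul_le).trans ?_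
      have e1 : (Polynomial.X ^ 2 - Polynomial.C c₀ : Polynomial ℝ).natDegree ≤ 2 := by
        refine (Polynomial.natDegree_sub_le _ _).trans ?_
        simp
      have e2 : (p ^ 2).natDegree ≤ 2 * (4 * i) :=
        (Polynomial.natDegree_pow_le).trans (Nat.mul_le_mul_left 2 hpdeg)
      omega)
    simp only [Polynomial.eval_mul, Polynomial.eval_sub, Polynomial.eval_pow, Polynomial.eval_X,
      Polynomial.eval_C, hp0] at h1
    rw [hG]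
    simp only
    rw [h1]
    ring
  -- second moment of `G`
  have hGsq : ∑ y, G y ^ 2 ≤ 2 ^ m * (64 * Real.sqrt m * L ^ 5) := by
    have h1 : ∀ y, G y ^ 2 ≤ 4 * m * L ^ 2 * (ssum y ^ 2 * p.eval (ssum y) ^ 2) := by
      intro y
      have h2 : pd m y ^ 2 ≤ 4 * m := by
        have h3 := pd_bd m hm y
        rw [← sq_abs]
        calc |pd m y| ^ 2 ≤ (2 * Real.sqrt m) ^ 2 := pow_le_pow_left₀ (abs_nonneg _) h3 2
          _ = 4 * (Real.sqrt m * Real.sqrt m) := by ring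
          _ = 4 * m := by rw [hss]
      have h4 : 1 ≤ ssum y ^ 2 := by
        have h5 := h97.ssum_abs hm y
        rw [← sq_abs]
        nlinarith
      have h6 : (ssum y ^ 2 - c₀) ^ 2 ≤ (ssum y ^ 2) ^ 2 :=
        pow_le_pow_left₀ (by linarith) (by linarith) 2
      have h7 : ((ssum y ^ 2 - c₀) * p.eval (ssum y) ^ 2) ^ 2
          ≤ L ^ 2 * (ssum y ^ 2 * p.eval (ssum y) ^ 2) := by
        calc ((ssum y ^ 2 - c₀) * p.eval (ssum y) ^ 2) ^ 2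
            = (ssum y ^ 2 - c₀) ^ 2 * (p.eval (ssum y) ^ 2) ^ 2 := by ring
          _ ≤ (ssum y ^ 2) ^ 2 * (p.eval (ssum y) ^ 2) ^ 2 :=
              mul_le_mul_of_nonneg_right h6 (by positivity)
          _ = (ssum y ^ 2 * p.eval (ssum y) ^ 2) * (ssum y ^ 2 * p.eval (ssum y) ^ 2) := by ring
          _ ≤ L ^ 2 * (ssum y ^ 2 * p.eval (ssum y) ^ 2) :=
              mul_le_mul_of_nonneg_right (hp2 y) (by positivity)
      calc G y ^ 2 = pd m y ^ 2 * ((ssum y ^ 2 - c₀) * p.eval (ssum y) ^ 2) ^ 2 := by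
            rw [hG]; ring
        _ ≤ (4 * m) * (L ^ 2 * (ssum y ^ 2 * p.eval (ssum y) ^ 2)) :=
            mul_le_mul h2 h7 (sq_nonneg _) (by positivity)
        _ = _ := by ring
    calc ∑ y, G y ^ 2 ≤ ∑ y : Fin m → Bool, 4 * m * L ^ 2 * (ssum y ^ 2 * p.eval (ssum y) ^ 2) :=
          Finset.sum_le_sum fun y _ => h1 y
      _ = 4 * m * L ^ 2 * ∑ y : Fin m → Bool, ssum y ^ 2 * p.eval (ssum y) ^ 2 := by
          rw [Finset.mul_sum]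
      _ ≤ 4 * m * L ^ 2 * (2 ^ m * (16 * L ^ 3 / Real.sqrt m)) :=
          mul_le_mul_of_nonneg_left hp3 (by positivity)
      _ = 2 ^ m * (64 * (m / Real.sqrt m) * L ^ 5) := by ring
      _ = 2 ^ m * (64 * Real.sqrt m * L ^ 5) := by
          congr 2
          rw [show (m : ℝ) / Real.sqrt m = Real.sqrt m by
            rw [div_eq_iff hspos.ne', hss]]
  -- deviation
  set f : (Fin m × Fin b → Bool) → ℝ := fun x => if x ∈ 𝒳 then 1 else 0 with hf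
  have hfsum : ∑ x, f x = (𝒳.card : ℝ) := by
    rw [hf]
    simp
  have hfsq : ∑ x, f x ^ 2 = (𝒳.card : ℝ) := by
    rw [← hfsum]
    refine Finset.sum_congr rfl fun x _ => ?_
    rw [hf]
    simp only
    split_ifs <;> simp
  have hfG : ∀ S : Fin m → Fin b, ∑ x, f x * G (rs S x) = ∑ x ∈ 𝒳, G (rs S x) := by
    intro S
    rw [hf]
    simp
  set dev : (Fin m → Fin b) → ℝ := fun S => ∑ x ∈ 𝒳, G (rs S x) + c₀ * 𝒳.card with hdev
  have hXle : (𝒳.card : ℝ) ≤ V := by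
    have h1 := Finset.card_le_univ 𝒳
    have h2 : Fintype.card (Fin m × Fin b → Bool) = 2 ^ (m * b) := by simp
    rw [h2] at h1
    rw [hV]
    exact_mod_cast h1
  have hmain : ∑ S, dev S ^ 2 ≤ N * V ^ 2 * (64 * Real.sqrt m * L ^ 5) / b := by
    have h1 := marg_dev hb f G
    rw [hfsum, hfsq, hGmean] at h1
    have h2 : ∀ S : Fin m → Fin b, (∑ x, f x * G (rs S x) - (𝒳.card : ℝ) * -(c₀ * 2 ^ m) / 2 ^ m) ^ 2
        = dev S ^ 2 := by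
      intro S
      rw [hfG, hdev]
      congr 1
      field_simp
      ring
    rw [Finset.sum_congr rfl fun S _ => h2 S] at h1
    refine h1.trans ?_
    rw [div_div, div_le_div_iff₀ (by positivity) hb']
    have h3 : (𝒳.card : ℝ) * ∑ y, G y ^ 2 ≤ V * (2 ^ m * (64 * Real.sqrt m * L ^ 5)) :=
      mul_le_mul hXle hGsq (Finset.sum_nonneg fun _ _ => sq_nonneg _) hVpos.le
    calc N * V * (𝒳.card : ℝ) * (∑ y, G y ^ 2) * b
        = (N * V * b) * ((𝒳.card : ℝ) * ∑ y, G y ^ 2) := by ring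
      _ ≤ (N * V * b) * (V * (2 ^ m * (64 * Real.sqrt m * L ^ 5))) :=
          mul_le_mul_of_nonneg_left h3 (by positivity)
      _ = N * V ^ 2 * (64 * Real.sqrt m * L ^ 5) * (2 ^ m * b) := by ring
  -- bad sets
  set Bd : Finset (Fin m → Fin b) := 𝒮.filter (fun S => ¬ dev S ≤ c₀ * γ / 4 * V) with hBd
  have hBdcard : (Bd.card : ℝ) ≤ γ / 2 * N := by
    have h1 : (Bd.card : ℝ) * (c₀ * γ / 4 * V) ^ 2 ≤ ∑ S, dev S ^ 2 := by
      calc (Bd.card : ℝ) * (c₀ * γ / 4 * V) ^ 2 = ∑ _S ∈ Bd, (c₀ * γ / 4 * V) ^ 2 := by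
            rw [Finset.sum_const, nsmul_eq_mul]
        _ ≤ ∑ S ∈ Bd, dev S ^ 2 := Finset.sum_le_sum fun S hS => by
            have := (Finset.mem_filter.1 hS).2
            push Not at this
            exact pow_le_pow_left₀ (by positivity) this.le 2
        _ ≤ ∑ S, dev S ^ 2 := Finset.sum_le_univ_sum_of_nonneg fun _ => sq_nonneg _
    have h2 := h1.trans hmain
    rw [le_div_iff₀ hb'] at h2
    have h3 : (Bd.card : ℝ) * (c₀ * γ) ^ 2 * b ≤ N * (1024 * Real.sqrt m * L ^ 5) := by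
      have h4 : ((Bd.card : ℝ) * (c₀ * γ) ^ 2 * b) * (V ^ 2 / 16)
          ≤ (N * (1024 * Real.sqrt m * L ^ 5)) * (V ^ 2 / 16) := by
        calc ((Bd.card : ℝ) * (c₀ * γ) ^ 2 * b) * (V ^ 2 / 16)
            = (Bd.card : ℝ) * (c₀ * γ / 4 * V) ^ 2 * b := by ring
          _ ≤ N * V ^ 2 * (64 * Real.sqrt m * L ^ 5) := h2
          _ = (N * (1024 * Real.sqrt m * L ^ 5)) * (V ^ 2 / 16) := by ring
      exact le_of_mul_le_mul_right h4 (by positivity)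
    have h5 : 1024 * Real.sqrt m * L ^ 5 ≤ (c₀ * γ) ^ 2 * b * (γ / 2) := by
      have h6 : (c₀ * γ ^ 3) ^ 2 * b ≤ (c₀ * γ) ^ 2 * b * γ := by
        have h7 : γ ^ 3 ≤ 1 := pow_le_one₀ hγ₀.le hγ₁
        have h8 : (c₀ * γ ^ 3) ^ 2 * b = (c₀ * γ) ^ 2 * b * γ * γ ^ 3 := by ring
        rw [h8]
        exact mul_le_of_le_one_right (by positivity) h7
      linarith
    have h9 : (Bd.card : ℝ) * ((c₀ * γ) ^ 2 * b) ≤ γ / 2 * N * ((c₀ * γ) ^ 2 * b) := by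
      calc (Bd.card : ℝ) * ((c₀ * γ) ^ 2 * b) = (Bd.card : ℝ) * (c₀ * γ) ^ 2 * b := by ring
        _ ≤ N * (1024 * Real.sqrt m * L ^ 5) := h3
        _ ≤ N * ((c₀ * γ) ^ 2 * b * (γ / 2)) := mul_le_mul_of_nonneg_left h5 hNpos.le
        _ = _ := by ring
    exact le_of_mul_le_mul_right h9 (by positivity)
  refine ⟨𝒮.filter (fun S => dev S ≤ c₀ * γ / 4 * V), Finset.filter_subset _ _, ?_, fun S hS => ?_⟩
  · have h5 := Finset.card_filter_add_card_filter_not (s := 𝒮)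
      (fun S => dev S ≤ c₀ * γ / 4 * V)
    have h6 : (((𝒮.filter (fun S => dev S ≤ c₀ * γ / 4 * V)).card : ℕ) : ℝ)
        + (Bd.card : ℝ) = (𝒮.card : ℝ) := by
      rw [← h5]
      push_cast
      rfl
    linarith
  · have h1 := (Finset.mem_filter.1 hS).2
    have h2 : c₀ * (γ * V) ≤ c₀ * 𝒳.card := mul_le_mul_of_nonneg_left h𝒳 hc₀.le
    have h3 : ∑ x ∈ 𝒳, G (rs S x) ≤ c₀ * γ / 4 * V - c₀ * 𝒳.card := by
      have : dev S = ∑ x ∈ 𝒳, G (rs S x) + c₀ * 𝒳.card := rfl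
      linarith
    refine le_trans h3 ?_
    linarith

end h59

/-- most `S` have a negative test against the indicator of a dense set `𝒳` -/
theorem good_tests {m b i : ℕ} (hm : Odd m) (hb : 0 < b) (hmi : 8 * i + 2 ≤ m) (c₀ γ : ℝ)
    (hc₀ : 0 < c₀) (hc₁ : c₀ ≤ 1) (hγ₀ : 0 < γ) (hγ₁ : γ ≤ 1)
    (p : Polynomial ℝ) (hpdeg : p.natDegree ≤ 4 * i) (hp0 : p.eval 0 = 1)
    (hp1 : ∀ y : Fin m → Bool, |p.eval (ssum y)| ≤ 1)
    (hp3 : ∀ y : Fin m → Bool, ssum y ^ 2 * p.eval (ssum y) ^ 2 ≤ ((m : ℝ) / (2 * i + 1)) ^ 2)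
    (hp2 : ∑ y : Fin m → Bool, ssum y ^ 2 * p.eval (ssum y) ^ 2
      ≤ 2 ^ m * (16 * ((m : ℝ) / (2 * i + 1)) ^ 3 / Real.sqrt m))
    (hbm : 2048 * Real.sqrt m * ((m : ℝ) / (2 * i + 1)) ^ 5 ≤ (c₀ * γ ^ 3) ^ 2 * b)
    (𝒳 : Finset (Fin m × Fin b → Bool)) (h𝒳 : γ * 2 ^ (m * b) ≤ 𝒳.card)
    (𝒮 : Finset (Fin m → Fin b)) (h𝒮 : γ * (b : ℝ) ^ m ≤ 𝒮.card) :
    ∃ 𝒢 : Finset (Fin m → Fin b), 𝒢 ⊆ 𝒮 ∧ γ / 2 * (b : ℝ) ^ m ≤ 𝒢.card ∧ ∀ S ∈ 𝒢,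
      ∑ x ∈ 𝒳, pd m (rs S x) * ((ssum (rs S x) ^ 2 - c₀) * p.eval (ssum (rs S x)) ^ 2)
        ≤ -(3 / 4 * (c₀ * γ) * 2 ^ (m * b)) :=
  h59.good_tests hm hb hmi c₀ γ ((m : ℝ) / (2 * i + 1)) hc₀ hc₁ hγ₀ hγ₁ (by positivity) p hpdeg
    hp0 hp3 hp2 hbm 𝒳 h𝒳 𝒮 h𝒮

end SDX
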